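import Pool.Agent.H74.TSD.Targets

set_option autoImplicit false

open MeasureTheory Set Metric Filter
open scoped ENNReal Pointwise Topology

namespace Pool.Agent.H14.TSD

open Pool.Agent.H74.TSD Pool.Agent.H73.TS

theorem isCompact_hsg (p l t : ℝ) : IsCompact (hsg p l t) := by
  have h : hsg p l t = Set.Icc p (p + l) ×ˢ {t} := by
    ext x
    simp only [hsg, Set.mem_ofPred_eq, Set.mem_prod, Set.mem_Icc, Set.mem_singleton_iff]
    tauto
  rw [h]
  exact isCompact_Icc.prod isCompact_singleton

theorem isCompact_slice (X : Set (ℝ × ℝ)) (hX : IsCompact X) (h : ℝ) :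
    IsCompact {s : ℝ | (s, h) ∈ X} := by
  have h1 : {s : ℝ | (s, h) ∈ X} = Prod.fst '' (X ∩ Prod.snd ⁻¹' {h}) := by
    ext s
    constructor
    · intro hs
      exact ⟨(s, h), ⟨hs, rfl⟩, rfl⟩
    · rintro ⟨x, ⟨hx, hxh⟩, rfl⟩
      have h2 : x.2 = h := hxh
      show (x.1, h) ∈ X
      rw [← h2]
      exact hx
  rw [h1]
  exact (hX.inter_right (isClosed_singleton.preimage continuous_snd)).image continuous_fst

theorem convex_slice (X : Set (ℝ × ℝ)) (hX : Convex ℝ X) (h : ℝ) :
    Convex ℝ {s : ℝ | (s, h) ∈ X} := by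
  intro x hx y hy a b ha hb hab
  have h1 := hX hx hy ha hb hab
  have h2 : a • ((x, h) : ℝ × ℝ) + b • ((y, h) : ℝ × ℝ) = (a • x + b • y, h) := by
    ext
    · simp
    · simp only [Prod.smul_mk, smul_eq_mul, Prod.mk_add_mk]
      rw [← add_mul, hab, one_mul]
  rw [h2] at h1
  exact h1

/-- the slices of the sum with a horizontal segment -/
theorem slice_add_le (X : Set (ℝ × ℝ)) (p l t h : ℝ) (hX : IsCompact X) (hc : Convex ℝ X)
    (hl : 0 ≤ l) (hne : {s : ℝ | (s, h - t) ∈ X}.Nonempty) :
    (volume {s : ℝ | (s, h) ∈ X + hsg p l t}).toReal ≤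
      (volume {s : ℝ | (s, h - t) ∈ X}).toReal + l := by
  have hK := isCompact_slice X hX (h - t)
  have hKc := convex_slice X hc (h - t)
  have hconn : IsConnected {s : ℝ | (s, h - t) ∈ X} := ⟨hne, hKc.isPreconnected⟩
  have hI := eq_Icc_of_connected_compact hconn hK
  set K : Set ℝ := {s : ℝ | (s, h - t) ∈ X} with hKdef
  set u := sInf K with hu
  set v := sSup K with hv
  have huv : u ≤ v := by
    obtain ⟨s, hs⟩ := hne
    rw [hI] at hs
    exact hs.1.trans hs.2
  have hsub : {s : ℝ | (s, h) ∈ X + hsg p l t} ⊆ Set.Icc (u + p) (v + p + l) := by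
    intro s hs
    obtain ⟨x, hx, y, hy, hxy⟩ := Set.mem_add.1 hs
    obtain ⟨hy1, hy2, hy3⟩ := hy
    have h1 : x.1 + y.1 = s := congrArg Prod.fst hxy
    have h2 : x.2 + y.2 = h := congrArg Prod.snd hxy
    have hxK : x.1 ∈ K := by
      have h3 : x = (x.1, h - t) := by
        ext
        · rfl
        · simp only
          linarith
      rw [h3] at hx
      exact hx
    rw [hI] at hxK
    obtain ⟨ha, hb⟩ := hxK
    exact ⟨by linarith, by linarith⟩
  have h1 : (volume {s : ℝ | (s, h) ∈ X + hsg p l t}).toReal ≤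
      (volume (Set.Icc (u + p) (v + p + l))).toReal := by
    refine ENNReal.toReal_mono ?_ (measure_mono hsub)
    rw [Real.volume_Icc]
    exact ENNReal.ofReal_ne_top
  rw [Real.volume_Icc, ENNReal.toReal_ofReal (by linarith)] at h1
  have h2 : (volume K).toReal = v - u := by
    rw [hI, Real.volume_Icc, ENNReal.toReal_ofReal (by linarith)]
  rw [h2]
  linarith

theorem pf_A2 (h : T_A1) : T_A2 := by
  intro X a e p l t hX hc he hl hb
  have hsum : IsCompact (X + hsg p l t) := hX.add (isCompact_hsg p l t)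
  obtain ⟨hi1, hA1⟩ := h X hX
  obtain ⟨hi2, hA2⟩ := h _ hsum
  rw [hA1, hA2]
  have hi1' : Integrable (fun s : ℝ => (volume {r : ℝ | (r, s - t) ∈ X}).toReal) :=
    hi1.comp_sub_right t
  have hi3 : Integrable (Set.indicator (Set.Icc (a + t) (a + t + e)) (fun _ : ℝ => l)) := by
    rw [integrable_indicator_iff measurableSet_Icc]
    exact integrableOn_const (by rw [Real.volume_Icc]; exact ENNReal.ofReal_ne_top)
  have hle : ∫ s : ℝ, (volume {r : ℝ | (r, s) ∈ X + hsg p l t}).toReal ≤
      ∫ s : ℝ, ((volume {r : ℝ | (r, s - t) ∈ X}).toReal +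
        Set.indicator (Set.Icc (a + t) (a + t + e)) (fun _ : ℝ => l) s) := by
    refine integral_mono hi2 (hi1'.add hi3) ?_
    intro s
    by_cases hne : {r : ℝ | (r, s - t) ∈ X}.Nonempty
    · have h1 := slice_add_le X p l t s hX hc hl hne
      have h2 : s ∈ Set.Icc (a + t) (a + t + e) := by
        obtain ⟨r, hr⟩ := hne
        have h3 := hb _ hr
        simp only at h3
        exact ⟨by linarith [h3.1], by linarith [h3.2]⟩
      simp only [Set.indicator_of_mem h2]
      exact h1
    · have h1 : {r : ℝ | (r, s) ∈ X + hsg p l t} = ∅ := by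
        rw [Set.eq_empty_iff_forall_notMem]
        intro r hr
        apply hne
        obtain ⟨x, hx, y, hy, hxy⟩ := Set.mem_add.1 hr
        obtain ⟨hy1, hy2, hy3⟩ := hy
        have h2 : x.2 + y.2 = s := congrArg Prod.snd hxy
        refine ⟨x.1, ?_⟩
        have h3 : x = (x.1, s - t) := by
          ext
          · rfl
          · simp only
            linarith
        rw [h3] at hx
        exact hx
      simp only [h1, measure_empty, ENNReal.toReal_zero]
      exact add_nonneg ENNReal.toReal_nonneg (Set.indicator_nonneg (fun _ _ => hl) s)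
  have hsplit : ∫ s : ℝ, ((volume {r : ℝ | (r, s - t) ∈ X}).toReal +
        Set.indicator (Set.Icc (a + t) (a + t + e)) (fun _ : ℝ => l) s) =
      (∫ s : ℝ, (volume {r : ℝ | (r, s) ∈ X}).toReal) + l * e := by
    rw [integral_add hi1' hi3, integral_indicator measurableSet_Icc, setIntegral_const,
      integral_sub_right_eq_self (fun s : ℝ => (volume {r : ℝ | (r, s) ∈ X}).toReal) t]
    congr 1
    rw [Measure.real, Real.volume_Icc, ENNReal.toReal_ofReal (by linarith), smul_eq_mul]
    ring
  rw [hsplit] at hle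
  exact hle

end Pool.Agent.H14.TSD
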