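import Pool.Agent.H74.TSD.Targets

set_option autoImplicit false

open MeasureTheory Set Metric Filter
open scoped ENNReal Pointwise Topology

namespace Pool.Agent.H14.TSD

open Pool.Agent.H74.TSD Pool.Agent.H73.TS

theorem isCompact_hsgB (p l t : ℝ) : IsCompact (hsg p l t) := by
  have h : hsg p l t = Set.Icc p (p + l) ×ˢ {t} := by
    ext x
    simp only [hsg, Set.mem_ofPred_eq, Set.mem_prod, Set.mem_Icc, Set.mem_singleton_iff]
    tauto
  rw [h]
  exact isCompact_Icc.prod isCompact_singleton

theorem isCompact_sliceB (X : Set (ℝ × ℝ)) (hX : IsCompact X) (h : ℝ) :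
    IsCompact {s : ℝ | (s, h) ∈ X} := by
  have h1 : {s : ℝ | (s, h) ∈ X} = Prod.fst '' (X ∩ Prod.snd ⁻¹' {h}) := by
    ext s
    constructor
    · intro hs
      exact ⟨(s, h), ⟨hs, rfl⟩, rfl⟩
    · rintro ⟨x, ⟨hx, hxh⟩, rfl⟩
      have h2 : x.2 = h := hxh
      show (x.1, h) ∈ X
      rw [← h2]
      exact hx
  rw [h1]
  exact (hX.inter_right (isClosed_singleton.preimage continuous_snd)).image continuous_fst

theorem slice_trap (P : Set (ℝ × ℝ)) (t p q l m κ h : ℝ) (hc : Convex ℝ P)
    (hκ : 0 ≤ κ) (h1 : (p, t) ∈ P) (h2 : (p + l, t) ∈ P) (h3 : (q, t + 1) ∈ P)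
    (h4 : (q + m, t + 1) ∈ P) (ht : t ≤ h) (ht1 : h ≤ t + 1) :
    Set.Icc ((1 - (h - t)) * p + (h - t) * q - κ)
        ((1 - (h - t)) * (p + l) + (h - t) * (q + m) + κ) ⊆
      {s : ℝ | (s, h) ∈ P + hsg (-κ) (2 * κ) 0} := by
  have ha : ((1 - (h - t)) * p + (h - t) * q, h) ∈ P := by
    have h5 := hc h1 h3 (show (0 : ℝ) ≤ 1 - (h - t) by linarith)
      (show (0 : ℝ) ≤ h - t by linarith) (by ring)
    have h6 : (1 - (h - t)) • ((p, t) : ℝ × ℝ) + (h - t) • ((q, t + 1) : ℝ × ℝ) =
        ((1 - (h - t)) * p + (h - t) * q, h) := by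
      ext
      · simp
      · simp only [Prod.smul_mk, smul_eq_mul, Prod.mk_add_mk]
        ring
    rw [h6] at h5
    exact h5
  have hb : ((1 - (h - t)) * (p + l) + (h - t) * (q + m), h) ∈ P := by
    have h5 := hc h2 h4 (show (0 : ℝ) ≤ 1 - (h - t) by linarith)
      (show (0 : ℝ) ≤ h - t by linarith) (by ring)
    have h6 : (1 - (h - t)) • ((p + l, t) : ℝ × ℝ) + (h - t) • ((q + m, t + 1) : ℝ × ℝ) =
        ((1 - (h - t)) * (p + l) + (h - t) * (q + m), h) := by
      ext
      · simp
      · simp only [Prod.smul_mk, smul_eq_mul, Prod.mk_add_mk]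
        ring
    rw [h6] at h5
    exact h5
  set u := (1 - (h - t)) * p + (h - t) * q with hu
  set v := (1 - (h - t)) * (p + l) + (h - t) * (q + m) with hv
  -- every point between `u` and `v` is in the slice of `P`
  have hseg : ∀ s : ℝ, u ≤ s → s ≤ v → (s, h) ∈ P := by
    intro s hs1 hs2
    rcases eq_or_lt_of_le (hs1.trans hs2) with huv | huv
    · have : s = u := le_antisymm (by rw [huv]; exact hs2) hs1
      rw [this]
      exact ha
    · have hpos : 0 < v - u := by linarith
      have h5 := hc ha hb (show (0 : ℝ) ≤ (v - s) / (v - u) from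
        div_nonneg (by linarith) hpos.le) (show (0 : ℝ) ≤ (s - u) / (v - u) from
        div_nonneg (by linarith) hpos.le) (by field_simp; ring)
      have h6 : ((v - s) / (v - u)) • ((u, h) : ℝ × ℝ) + ((s - u) / (v - u)) • ((v, h) : ℝ × ℝ)
          = (s, h) := by
        ext
        · simp only [Prod.smul_mk, smul_eq_mul, Prod.mk_add_mk]
          field_simp
          ring
        · simp only [Prod.smul_mk, smul_eq_mul, Prod.mk_add_mk]
          field_simp
          ring
      rw [h6] at h5
      exact h5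
  by_cases huv : u ≤ v
  · rintro s ⟨hs1, hs2⟩
    show (s, h) ∈ P + hsg (-κ) (2 * κ) 0
    rw [Set.mem_add]
    -- the nearest point of `[u, v]`
    refine ⟨(max u (min v s), h), hseg _ (le_max_left _ _) (max_le huv (min_le_left _ _)),
      (s - max u (min v s), 0), ⟨?_, ?_, rfl⟩, ?_⟩
    · show -κ ≤ s - max u (min v s)
      have : max u (min v s) ≤ s + κ := max_le (by linarith) ((min_le_right _ _).trans
        (by linarith))
      linarith
    · show s - max u (min v s) ≤ -κ + 2 * κ
      have h7 : min v s ≤ max u (min v s) := le_max_right _ _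
      have h8 : s - κ ≤ min v s := le_min (by linarith) (by linarith)
      linarith
    · ext
      · simp
      · simp
  · -- the interval between `v` and `u`
    push Not at huv
    have hseg' : ∀ s : ℝ, v ≤ s → s ≤ u → (s, h) ∈ P := by
      intro s hs1 hs2
      have hpos : 0 < u - v := by linarith
      have h5 := hc ha hb (show (0 : ℝ) ≤ (s - v) / (u - v) from
        div_nonneg (by linarith) hpos.le) (show (0 : ℝ) ≤ (u - s) / (u - v) from
        div_nonneg (by linarith) hpos.le) (by field_simp; ring)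
      have h6 : ((s - v) / (u - v)) • ((u, h) : ℝ × ℝ) + ((u - s) / (u - v)) • ((v, h) : ℝ × ℝ)
          = (s, h) := by
        ext
        · simp only [Prod.smul_mk, smul_eq_mul, Prod.mk_add_mk]
          field_simp
          ring
        · simp only [Prod.smul_mk, smul_eq_mul, Prod.mk_add_mk]
          field_simp
          ring
      rw [h6] at h5
      exact h5
    rintro s ⟨hs1, hs2⟩
    show (s, h) ∈ P + hsg (-κ) (2 * κ) 0
    rw [Set.mem_add]
    refine ⟨(max v (min u s), h), hseg' _ (le_max_left _ _) (max_le huv.le (min_le_left _ _)),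
      (s - max v (min u s), 0), ⟨?_, ?_, rfl⟩, ?_⟩
    · show -κ ≤ s - max v (min u s)
      have : max v (min u s) ≤ s + κ := max_le (by linarith) ((min_le_right _ _).trans
        (by linarith))
      linarith
    · show s - max v (min u s) ≤ -κ + 2 * κ
      have h7 : min u s ≤ max v (min u s) := le_max_right _ _
      have h8 : s - κ ≤ min u s := le_min (by linarith) (by linarith)
      linarith
    · ext
      · simp
      · simp

theorem pf_A3 (h : T_A1) : T_A3 := by
  intro P t p q l m κ hP hc hl hm hκ h1 h2 h3 h4 _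
  have hsum : IsCompact (P + hsg (-κ) (2 * κ) 0) := hP.add (isCompact_hsgB _ _ _)
  obtain ⟨hi, hA⟩ := h _ hsum
  rw [hA]
  have hle1 : ∫ s in Set.Icc t (t + 1), ((1 - (s - t)) * l + (s - t) * m + 2 * κ) ≤
      ∫ s in Set.Icc t (t + 1), (volume {r : ℝ | (r, s) ∈ P + hsg (-κ) (2 * κ) 0}).toReal := by
    refine setIntegral_mono_on ?_ hi.integrableOn measurableSet_Icc ?_
    · apply Continuous.integrableOn_Icc
      fun_prop
    · intro s hs
      have hsub := slice_trap P t p q l m κ s hc hκ h1 h2 h3 h4 hs.1 hs.2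
      have h5 := ENNReal.toReal_mono
        ((isCompact_sliceB _ hsum s).measure_lt_top (μ := volume)).ne (measure_mono hsub)
      rw [Real.volume_Icc, ENNReal.toReal_ofReal] at h5
      · have h6 : (1 - (s - t)) * (p + l) + (s - t) * (q + m) + κ -
            ((1 - (s - t)) * p + (s - t) * q - κ) = (1 - (s - t)) * l + (s - t) * m + 2 * κ := by
          ring
        rw [h6] at h5
        exact h5
      · have h7 : 0 ≤ (1 - (s - t)) * l := mul_nonneg (by linarith [hs.2]) hl
        have h8 : 0 ≤ (s - t) * m := mul_nonneg (by linarith [hs.1]) hm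
        nlinarith
  have hle2 : ∫ s in Set.Icc t (t + 1),
      (volume {r : ℝ | (r, s) ∈ P + hsg (-κ) (2 * κ) 0}).toReal ≤
      ∫ s : ℝ, (volume {r : ℝ | (r, s) ∈ P + hsg (-κ) (2 * κ) 0}).toReal :=
    setIntegral_le_integral hi (Filter.Eventually.of_forall fun _ => ENNReal.toReal_nonneg)
  have hval : ∫ s in Set.Icc t (t + 1), ((1 - (s - t)) * l + (s - t) * m + 2 * κ) =
      (l + m) / 2 + 2 * κ := by
    rw [integral_Icc_eq_integral_Ioc, ← intervalIntegral.integral_of_le (by linarith)]
    have h9 : ∀ s : ℝ, (1 - (s - t)) * l + (s - t) * m + 2 * κ =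
        (l + t * (l - m) + 2 * κ) + (m - l) * s := by
      intro s
      ring
    simp only [h9]
    rw [intervalIntegral.integral_add (by simp) (by
      apply Continuous.intervalIntegrable; fun_prop), intervalIntegral.integral_const,
      intervalIntegral.integral_const_mul, integral_id]
    simp only [smul_eq_mul]
    ring
  linarith

end Pool.Agent.H14.TSD
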